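import Pool.Agent.Q227.LB.Sat

/-!
# A subexponential algorithm for satisfiability from an algorithm for lobbying
-/

set_option autoImplicit false

namespace Pool.Agent.Q227.LB

open Pool.Agent.NPC Pool.Agent.Q227.TF Pool.Agent.Q227.SK

variable (A : List Bool → List Bool)

/-- The quota, computed with queries. -/
def zz (m : ℕ) : ℕ :=
  ((List.range (m + 1)).filter fun r => !decide (A (bits (qry m r)) = [true])).length

/-- The instances are exactly decided by `A`. -/
def Dec (z : ℕ → ℕ) : Prop := ∀ I : Mat × ℕ, Valid I → (A (bits I) = [true] ↔ Old z I)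

variable {A}

theorem length_filter_lt {n c : ℕ} {f : ℕ → Bool} (hc : c ≤ n)
    (h : ∀ r < n, f r = true ↔ r < c) : ((List.range n).filter f).length = c := by
  have h1 : ((List.range n).filter f).toFinset = Finset.range c := by
    ext r
    rw [List.mem_toFinset, List.mem_filter, List.mem_range, Finset.mem_range]
    constructor
    · rintro ⟨h1, h2⟩
      exact (h r h1).1 h2
    · intro h1
      exact ⟨by omega, (h r (by omega)).2 h1⟩
  have h2 : ((List.range n).filter f).Nodup := List.nodup_range.filter _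
  rw [← List.toFinset_card_of_nodup h2, h1, Finset.card_range]

theorem zz_eq {z : ℕ → ℕ} (hA : Dec A z) (hz : ∀ m, z m ≤ m) (m : ℕ) : zz A m = z m := by
  unfold zz
  refine length_filter_lt ((hz m).trans (Nat.le_succ m)) fun r hr => ?_
  rw [Bool.not_eq_true', decide_eq_false_iff_not, hA _ (qry_valid m r), qry_old (by omega)]
  exact not_le

/-- All variables are less than `N`. -/
def vchk (φ : F3) (N : ℕ) : Bool :=
  φ.all fun C => decide (C.1.2 < N) && (decide (C.2.1.2 < N) && decide (C.2.2.2 < N))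

theorem vchk_iff {φ : F3} {N : ℕ} : vchk φ N = true ↔ Vars φ N := by
  unfold vchk Vars
  simp [List.all_eq_true]

theorem Vars.mono {φ : F3} {N N' : ℕ} (h : Vars φ N) (hN : N ≤ N') : Vars φ N' := fun C hC =>
  ⟨(h C hC).1.trans_le hN, (h C hC).2.1.trans_le hN, (h C hC).2.2.trans_le hN⟩

/-- The least `c` such that all variables are less than `c (e + 1)`. -/
def cc (φ : F3) (e L : ℕ) : ℕ :=
  ((List.range (L + 1)).filter fun t => !vchk φ (t * (e + 1))).length

theorem cc_spec {φ : F3} {e L c : ℕ} (h : Vars φ (c * (e + 1))) (hc : c ≤ L) :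
    cc φ e L ≤ c ∧ Vars φ (cc φ e L * (e + 1)) := by
  have hex : ∃ t, vchk φ (t * (e + 1)) = true := ⟨c, vchk_iff.2 h⟩
  have h1 : Nat.find hex ≤ c := Nat.find_min' hex (vchk_iff.2 h)
  have h2 : cc φ e L = Nat.find hex := by
    unfold cc
    refine length_filter_lt (by omega) fun r _ => ?_
    rw [Bool.not_eq_true', ← Bool.not_eq_true]
    constructor
    · intro hr
      by_contra hcon
      apply hr
      exact vchk_iff.2 ((vchk_iff.1 (Nat.find_spec hex)).mono
        (Nat.mul_le_mul_right _ (not_lt.1 hcon)))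
    · exact fun hr => Nat.find_min hex hr
  rw [h2]
  exact ⟨h1, vchk_iff.1 (Nat.find_spec hex)⟩

/-- The exponent of the length of the second component. -/
def ee (a : F3 × List Bool) : ℕ := a.2.length.bits.length - 1

/-- The size of the groups. -/
def gg (a : F3 × List Bool) : ℕ := ee a / 12 + 1

/-- The number of groups. -/
def qq (a : F3 × List Bool) : ℕ := 12 * (cc a.1 (ee a) a.2.length + 1)

/-- The size of the clique. -/
def kq (a : F3 × List Bool) : ℕ := qq a * qq a * qq a

/-- The number of pairs in the clique. -/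
def c2 (a : F3 × List Bool) : ℕ := kq a * (kq a - 1) / 2

/-- The vertices. -/
def vl (a : F3 × List Bool) : List Vx := vlist a.1 (qq a) (gg a) a.2.length

/-- The edges. -/
def el (a : F3 × List Bool) : List (ℕ × ℕ) := elist (vl a)

variable (A)

/-- The candidates for the number of issues. -/
def cand (a : F3 × List Bool) : List ℕ :=
  ((List.range a.2.length).map fun t => a.2.length + t).filter fun m =>
    decide (c2 a ≤ zz A (min m (2 * a.2.length))) &&
      decide (c2 a + zz A (min m (2 * a.2.length)) ≤ m)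

/-- The number of issues. -/
def mm (a : F3 × List Bool) : ℕ := min ((cand A a).getD 0 0) (2 * a.2.length)

/-- The algorithm. -/
def body (a : F3 × List Bool) : Bool :=
  !(cand A a).isEmpty && (!decide ((el a).length < c2 a) &&
    if 2 * zz A (mm A a) ≤ mm A a then
      decide (A (bits (inst1 (vl a).length (kq a) (mm A a) (zz A (mm A a) - c2 a) (el a)))
        = [true])
    else
      decide (A (bits (inst2 (vl a).length (kq a) (mm A a) (mm A a - zz A (mm A a) - kq a)
        (el a))) = [true]))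

/-- The algorithm on bit strings. -/
def BB (x : List Bool) : List Bool :=
  match unbits (F3 × List Bool) x with
  | some a => [body A a]
  | none => [false]

variable {A}

theorem c2_eq (a : F3 × List Bool) : c2 a = (kq a).choose 2 := (Nat.choose_two_right _).symm

theorem body_right {z : ℕ → ℕ} (hA : Dec A z) (hz : ∀ m, z m ≤ m) {c N : ℕ} (hc : 0 < c)
    (he : 128 * (12 * (c + 1)) ^ 6 ≤ 2 ^ (N / c / 2)) {m₀ : ℕ} (hm1 : 2 ^ (N / c) ≤ m₀)
    (hm2 : m₀ < 2 * 2 ^ (N / c)) (hm3 : (12 * (c + 1)) ^ 6 ≤ z m₀)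
    (hm4 : (12 * (c + 1)) ^ 6 + z m₀ ≤ m₀) {φ : F3} (hφ : Vars φ N) :
    body A (φ, List.replicate (2 ^ (N / c)) true) = true ↔ SAT3 φ := by
  obtain ⟨a, ha⟩ : ∃ a, a = (φ, List.replicate (2 ^ (N / c)) true) := ⟨_, rfl⟩
  rw [← ha]
  obtain ⟨e, hee⟩ : ∃ e, e = N / c := ⟨_, rfl⟩
  rw [← hee] at ha he hm1 hm2
  obtain ⟨L, hLd⟩ : ∃ L, L = 2 ^ e := ⟨_, rfl⟩
  have ha1 : a.1 = φ := by rw [ha]
  have ha2 : a.2.length = L := by rw [ha, hLd]; simp
  have hea : ee a = e := by
    unfold ee
    rw [ha2, hLd, Nat.size_eq_bits_len, Nat.size_pow, Nat.add_sub_cancel]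
  have hga : gg a = e / 12 + 1 := by
    unfold gg
    rw [hea]
  have hL0 : 1 ≤ L := by rw [hLd]; exact Nat.one_le_two_pow
  -- the number of groups
  have hcL : c ≤ L := by
    have h1 : c ≤ (12 * (c + 1)) ^ 6 := by
      calc c ≤ 12 * (c + 1) := by omega
        _ ≤ (12 * (c + 1)) ^ 6 := Nat.le_self_pow (by norm_num) _
    have h2 : 2 ^ (e / 2) ≤ 2 ^ e := Nat.pow_le_pow_right (by norm_num) (by omega)
    omega
  have hNc : N ≤ c * (e + 1) := by
    have h1 := Nat.div_add_mod N c
    have h2 := Nat.mod_lt N hc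
    rw [← hee] at h1
    rw [mul_add, mul_one]
    omega
  obtain ⟨hcc1, hcc2⟩ := cc_spec (L := L) (hφ.mono hNc) hcL
  obtain ⟨q, hq⟩ : ∃ q, q = qq a := ⟨_, rfl⟩
  have hqa : q = 12 * (cc φ e L + 1) := by rw [hq]; unfold qq; rw [ha1, hea, ha2]
  have hq12 : 12 ≤ q := by omega
  have hqc : q ≤ 12 * (c + 1) := by omega
  have hqN : cc φ e L * (e + 1) ≤ q * gg a := by
    rw [hqa, hga]
    have h1 : e + 1 ≤ 12 * (e / 12 + 1) := by omega
    calc cc φ e L * (e + 1) ≤ (cc φ e L + 1) * (12 * (e / 12 + 1)) :=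
          Nat.mul_le_mul (Nat.le_succ _) h1
      _ = 12 * (cc φ e L + 1) * (e / 12 + 1) := by ring
  -- the numbers of vertices and edges
  obtain ⟨V, hV⟩ : ∃ V, V = (vl a).length := ⟨_, rfl⟩
  have hVle : V * V ≤ 64 * q ^ 6 * 2 ^ (e / 2) := by
    have h1 : V ≤ (q * 2 ^ gg a) * ((q * 2 ^ gg a) * (q * 2 ^ gg a)) := by
      rw [hV, hq]
      exact vlist_length _ _ _ _
    calc V * V ≤ ((q * 2 ^ gg a) * ((q * 2 ^ gg a) * (q * 2 ^ gg a))) *
          ((q * 2 ^ gg a) * ((q * 2 ^ gg a) * (q * 2 ^ gg a))) := Nat.mul_le_mul h1 h1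
      _ = q ^ 6 * 2 ^ (6 * gg a) := by
        rw [show 6 * gg a = gg a * 6 by ring, pow_mul]
        ring
      _ ≤ q ^ 6 * 2 ^ (6 + e / 2) := by
        refine Nat.mul_le_mul_left _ (Nat.pow_le_pow_right (by norm_num) ?_)
        rw [hga]
        omega
      _ = 64 * q ^ 6 * 2 ^ (e / 2) := by
        rw [pow_add]
        ring
  have hV2 : 2 * (V * V) ≤ L := by
    have h1 : 128 * q ^ 6 ≤ 2 ^ (e / 2) := le_trans (Nat.mul_le_mul_left _
      (Nat.pow_le_pow_left hqc 6)) he
    calc 2 * (V * V) ≤ 2 * (64 * q ^ 6 * 2 ^ (e / 2)) := Nat.mul_le_mul_left _ hVle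
      _ = (128 * q ^ 6) * 2 ^ (e / 2) := by ring
      _ ≤ 2 ^ (e / 2) * 2 ^ (e / 2) := Nat.mul_le_mul_right _ h1
      _ = 2 ^ (e / 2 + e / 2) := by rw [pow_add]
      _ ≤ 2 ^ e := Nat.pow_le_pow_right (by norm_num) (by omega)
      _ = L := hLd.symm
  have hVV : V ≤ V * V := by
    rcases Nat.eq_zero_or_pos V with h | h
    · omega
    · exact Nat.le_mul_of_pos_left V h
  have hM : (el a).length ≤ V * V := by
    rw [hV]
    exact elist_length _
  -- the size of the clique
  obtain ⟨k, hk⟩ : ∃ k, k = kq a := ⟨_, rfl⟩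
  have hkq : k = q * q * q := by rw [hk, hq]; rfl
  have hk3 : 3 ≤ k := by
    rw [hkq]
    calc 3 ≤ 1 * 1 * q := by omega
      _ ≤ q * q * q := Nat.mul_le_mul_right _ (Nat.mul_le_mul (by omega) (by omega))
  have hc2 : c2 a = k.choose 2 := by rw [c2_eq, hk]
  have hkc : k ≤ k.choose 2 := by
    obtain ⟨j, hj⟩ : ∃ j, k = j + 3 := ⟨k - 3, by omega⟩
    rw [hj, Nat.choose_two_right]
    rw [Nat.le_div_iff_mul_le (by norm_num)]
    refine Nat.mul_le_mul_left _ ?_
    omega
  have hc2le : k.choose 2 ≤ (12 * (c + 1)) ^ 6 := by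
    rw [Nat.choose_two_right]
    calc k * (k - 1) / 2 ≤ k * (k - 1) := Nat.div_le_self _ _
      _ ≤ k * k := Nat.mul_le_mul_left _ (Nat.sub_le _ _)
      _ = q ^ 6 := by rw [hkq]; ring
      _ ≤ (12 * (c + 1)) ^ 6 := Nat.pow_le_pow_left hqc 6
  -- satisfiability is a clique problem
  have hsat : SAT3 φ ↔ Clq V k (el a) := by
    have h1 := sat_iff (g := gg a) (L := L) (q := q) hcc2 hqN (by rw [hga]; omega) (by
      rw [hga, hLd, ← pow_succ']
      exact Nat.pow_le_pow_right (by norm_num) (by omega))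
    rw [h1, hkq, hV]
    unfold el vl
    rw [ha1, ha2, hq]
  -- the candidates
  have hcand : ∀ m, m ∈ cand A a ↔ L ≤ m ∧ m < 2 * L ∧ k.choose 2 ≤ z m ∧
      k.choose 2 + z m ≤ m := by
    intro m
    unfold cand
    rw [List.mem_filter, List.mem_map, Bool.and_eq_true, decide_eq_true_eq, decide_eq_true_eq,
      hc2, ha2]
    constructor
    · rintro ⟨⟨t, ht, rfl⟩, h1, h2⟩
      rw [List.mem_range] at ht
      rw [zz_eq hA hz, Nat.min_eq_left (by omega)] at h1 h2
      exact ⟨by omega, by omega, h1, h2⟩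
    · rintro ⟨h1, h2, h3, h4⟩
      rw [zz_eq hA hz, Nat.min_eq_left (by omega)]
      exact ⟨⟨m - L, List.mem_range.2 (by omega), by omega⟩, h3, h4⟩
  have hne : m₀ ∈ cand A a := (hcand m₀).2
    ⟨by rw [hLd]; exact hm1, by rw [hLd]; exact hm2, hc2le.trans hm3, by omega⟩
  have hemp : (cand A a).isEmpty = false := by
    rw [List.isEmpty_eq_false_iff]
    exact List.ne_nil_of_mem hne
  obtain ⟨m, hm⟩ : ∃ m, m = mm A a := ⟨_, rfl⟩
  have hmc : L ≤ m ∧ m < 2 * L ∧ k.choose 2 ≤ z m ∧ k.choose 2 + z m ≤ m := by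
    have hlen : 0 < (cand A a).length := List.length_pos_of_mem hne
    have h1 : (cand A a).getD 0 0 ∈ cand A a := by
      rw [List.getD_eq_getElem _ _ hlen]
      exact List.getElem_mem hlen
    rw [hcand] at h1
    have h2 : m = (cand A a).getD 0 0 := by
      rw [hm]
      unfold mm
      rw [ha2]
      exact Nat.min_eq_left (by omega)
    rw [h2]
    exact h1
  obtain ⟨m1, m2, m3, m4⟩ := hmc
  unfold body
  rw [hemp, ← hm, zz_eq hA hz, hc2, ← hk, ← hV, Bool.not_false, Bool.true_and]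
  by_cases hMc : (el a).length < k.choose 2
  · rw [decide_eq_true hMc, Bool.not_true, Bool.false_and, hsat]
    constructor
    · intro h
      exact absurd h (by simp)
    · rintro ⟨K, hK, hKk, hKe⟩
      have h1 : pairsOf K ⊆ (el a).toFinset := fun p hp => List.mem_toFinset.2 (hKe p hp)
      have h2 := Finset.card_le_card h1
      rw [card_pairsOf, hKk] at h2
      have h3 := List.toFinset_card_le (el a)
      omega
  · rw [decide_eq_false hMc, Bool.not_false, Bool.true_and]
    by_cases h2z : 2 * z m ≤ m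
    · rw [if_pos h2z, decide_eq_true_eq, hA _ (inst1_valid _ _ _ _ _), hsat]
      exact inst1_old (by omega) (elist_nodup _) (by rw [hV]; exact elist_lt _) (by omega)
        (by omega)
    · rw [if_neg h2z, decide_eq_true_eq, hA _ (inst2_valid (by omega)), hsat]
      exact inst2_old (by omega) (elist_nodup _) (by rw [hV]; exact elist_lt _) (by omega)
        (by omega) (by omega)

theorem BB_right {z : ℕ → ℕ} (hA : Dec A z) (hz : ∀ m, z m ≤ m) {c N : ℕ} (hc : 0 < c)
    (he : 128 * (12 * (c + 1)) ^ 6 ≤ 2 ^ (N / c / 2)) {m₀ : ℕ} (hm1 : 2 ^ (N / c) ≤ m₀)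
    (hm2 : m₀ < 2 * 2 ^ (N / c)) (hm3 : (12 * (c + 1)) ^ 6 ≤ z m₀)
    (hm4 : (12 * (c + 1)) ^ 6 + z m₀ ≤ m₀) : Right (BB A) N (2 ^ (N / c)) := by
  intro φ hφ
  rw [← body_right hA hz hc he hm1 hm2 hm3 hm4 hφ]
  unfold BB
  rw [unbits_bits]
  simp

end Pool.Agent.Q227.LB
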