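import Pool.Agent.NPC.Sat2
import Pool.Agent.NPC.Dec
import Pool.Agent.Q227.TF.Red

/-!
# Unanimity lobbying with a quota of issues
-/

set_option autoImplicit false

namespace Pool.Agent.Q227.LB

open Pool.Agent.NPC Pool.Agent.Q227.TF

/-- A profile: the list of the rows. -/
abbrev Mat : Type := List (List Bool)

/-- The entry of `X` in the row (voter) `i` and the column (issue) `j`. -/
def ent (X : Mat) (i j : ℕ) : Bool := (X.getD i []).getD j false

/-- The number of issues. -/
def wid (X : Mat) : ℕ := (X.getD 0 []).length

/-- The instances: a matrix with at least one row, whose rows have the same length, and a budget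
of at most the number of rows. -/
def Valid (I : Mat × ℕ) : Prop :=
  I.1 ≠ [] ∧ (∀ r ∈ I.1, r.length = wid I.1) ∧ I.2 ≤ I.1.length

open Classical in
/-- There is a profile which differs from the given one in at most `I.2` rows and in which at
least `z m` issues pass, that is, at least `z m` columns are all ones (`m` is the number of
issues). -/
def Old (z : ℕ → ℕ) (I : Mat × ℕ) : Prop := ∃ Y : ℕ → ℕ → Bool,
  ((Finset.range I.1.length).filter fun i => ∃ j < wid I.1, Y i j ≠ ent I.1 i j).card ≤ I.2 ∧
  z (wid I.1) ≤
    ((Finset.range (wid I.1)).filter fun j => ∀ i < I.1.length, Y i j = true).card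

/-- Unanimity lobbying with the quota `z` is decided in polynomial time (by some Turing machine; no
assumption on the computability of `z`). -/
def InPoly (z : ℕ → ℕ) : Prop := ∃ A : List Bool → List Bool, PolyTime A ∧
  ∀ I : Mat × ℕ, Valid I → (A (bits I) = [true] ↔ Old z I)

/-- All variables of the formula are less than `N`. -/
def Vars (φ : F3) (N : ℕ) : Prop := ∀ C ∈ φ, C.1.2 < N ∧ C.2.1.2 < N ∧ C.2.2.2 < N

/-- The procedure `B` is right about the satisfiability of all `3`-CNF formulas with `N` variables,
when it gets the formula and a string of `T` ones. -/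
def Right (B : List Bool → List Bool) (N T : ℕ) : Prop :=
  ∀ φ : F3, Vars φ N → (B (bits (φ, List.replicate T true)) = [true] ↔ SAT3 φ)

/-- The exponential time hypothesis, in its weak uniform form: there is no algorithm `B` such that
for every `c > 0`, the algorithm `B` decides the satisfiability of the `3`-CNF formulas `φ` with
`N` variables, for all sufficiently large `N`, in time polynomial in `2 ^ (N / c)` and `|φ|`. -/
def ETH : Prop := ¬ ∃ B : List Bool → List Bool, PolyTime B ∧
  ∀ c : ℕ, 0 < c → ∃ n₀ : ℕ, ∀ N, n₀ ≤ N → Right B N (2 ^ (N / c))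

/-- The almost everywhere form of the exponential time hypothesis: there is no algorithm `B` such
that for every `c > 0`, the algorithm `B` decides the satisfiability of the `3`-CNF formulas `φ`
with `N` variables, for infinitely many `N`, in time polynomial in `2 ^ (N / c)` and `|φ|`. -/
def ETHae : Prop := ¬ ∃ B : List Bool → List Bool, PolyTime B ∧
  ∀ c : ℕ, 0 < c → ∀ n₀ : ℕ, ∃ N, n₀ ≤ N ∧ Right B N (2 ^ (N / c))

end Pool.Agent.Q227.LB
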