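import Pool.Agent.Q227.LB.Defs
import Pool.Agent.Q227.SK.Inst

/-!
# Cliques as instances of unanimity lobbying
-/

set_option autoImplicit false

namespace Pool.Agent.Q227.LB

open Pool.Agent.Q227.SK Finset

theorem old_iff (z : ℕ → ℕ) (I : Mat × ℕ) : Old z I ↔ ∃ S ⊆ range (wid I.1),
    z (wid I.1) ≤ S.card ∧
      ((range I.1.length).filter fun i => ∃ j ∈ S, ent I.1 i j = false).card ≤ I.2 := by
  classical
  constructor
  · rintro ⟨Y, h1, h2⟩
    refine ⟨_, filter_subset _ _, h2, le_trans (card_le_card ?_) h1⟩
    intro i hi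
    rw [mem_filter] at hi ⊢
    obtain ⟨hi, j, hj, hf⟩ := hi
    rw [mem_filter] at hj
    refine ⟨hi, j, mem_range.1 hj.1, ?_⟩
    rw [hj.2 i (mem_range.1 hi), hf]
    simp
  · rintro ⟨S, hS, h1, h2⟩
    refine ⟨fun i j => if j ∈ S then true else ent I.1 i j, le_trans (card_le_card ?_) h2,
      le_trans h1 (card_le_card ?_)⟩
    · intro i hi
      rw [mem_filter] at hi ⊢
      obtain ⟨hi, j, hj, hf⟩ := hi
      refine ⟨hi, j, ?_⟩
      by_cases hjS : j ∈ S
      · refine ⟨hjS, ?_⟩
        simp only [if_pos hjS] at hf
        cases h : ent I.1 i j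
        · rfl
        · exact absurd h.symm hf
      · simp only [if_neg hjS] at hf
        exact absurd rfl hf
    · intro j hj
      rw [mem_filter]
      exact ⟨hS hj, fun i _ => if_pos hj⟩

/-- The matrix with the entries `f i j`. -/
def mk (n m : ℕ) (f : ℕ → ℕ → Bool) : Mat :=
  (List.range n).map fun i => (List.range m).map fun j => f i j

theorem mk_length (n m : ℕ) (f : ℕ → ℕ → Bool) : (mk n m f).length = n := by simp [mk]

theorem mk_getD {n m : ℕ} {f : ℕ → ℕ → Bool} {i : ℕ} (hi : i < n) :
    (mk n m f).getD i [] = (List.range m).map fun j => f i j := by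
  rw [List.getD_eq_getElem _ _ (by rw [mk_length]; exact hi)]
  simp [mk]

theorem mk_wid {n m : ℕ} {f : ℕ → ℕ → Bool} (hn : 0 < n) : wid (mk n m f) = m := by
  unfold wid
  rw [mk_getD hn]
  simp

theorem mk_ent {n m : ℕ} {f : ℕ → ℕ → Bool} {i j : ℕ} (hi : i < n) (hj : j < m) :
    ent (mk n m f) i j = f i j := by
  unfold ent
  rw [mk_getD hi, List.getD_eq_getElem _ _ (by simpa using hj)]
  simp

theorem mk_valid {n m k : ℕ} {f : ℕ → ℕ → Bool} (hn : 0 < n) (hk : k ≤ n) :
    Valid (mk n m f, k) := by
  refine ⟨?_, ?_, ?_⟩
  · intro h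
    have := mk_length n m f
    simp only at h
    rw [h, List.length_nil] at this
    omega
  · intro r hr
    simp only at hr ⊢
    rw [mk_wid hn]
    obtain ⟨i, _, rfl⟩ := List.mem_map.1 hr
    simp
  · simp only
    rw [mk_length]
    exact hk

theorem mk_old {n m k : ℕ} {f : ℕ → ℕ → Bool} (hn : 0 < n) (z : ℕ → ℕ) :
    Old z (mk n m f, k) ↔ ∃ S ⊆ range m, z m ≤ S.card ∧
      ((range n).filter fun i => ∃ j ∈ S, f i j = false).card ≤ k := by
  rw [old_iff]
  simp only [mk_wid hn, mk_length]
  refine exists_congr fun S => and_congr_right fun hS => and_congr_right fun _ => ?_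
  have : ((range n).filter fun i => ∃ j ∈ S, ent (mk n m f) i j = false) =
      (range n).filter fun i => ∃ j ∈ S, f i j = false := by
    refine filter_congr fun i hi => ?_
    rw [mem_range] at hi
    constructor
    · rintro ⟨j, hj, h⟩
      exact ⟨j, hj, by rwa [mk_ent hi (mem_range.1 (hS hj))] at h⟩
    · rintro ⟨j, hj, h⟩
      exact ⟨j, hj, by rwa [mk_ent hi (mem_range.1 (hS hj))]⟩
  rw [this]

/-! ### The query for the quota -/

/-- The query with `r` all-ones columns. -/
def qry (m r : ℕ) : Mat × ℕ := (mk 1 m (fun _ j => decide (j < r)), 0)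

theorem qry_valid (m r : ℕ) : Valid (qry m r) := mk_valid Nat.one_pos (Nat.zero_le _)

theorem qry_old {z : ℕ → ℕ} {m r : ℕ} (hr : r ≤ m) : Old z (qry m r) ↔ z m ≤ r := by
  unfold qry
  rw [mk_old Nat.one_pos]
  constructor
  · rintro ⟨S, hS, h1, h2⟩
    have : S ⊆ range r := by
      intro j hj
      rw [mem_range]
      by_contra hcon
      have h3 : 0 ∈ (range 1).filter fun i => ∃ j ∈ S, decide (j < r) = false := by
        rw [mem_filter]
        exact ⟨by simp, j, hj, decide_eq_false hcon⟩
      have := card_pos.2 ⟨0, h3⟩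
      omega
    have h3 := card_le_card this
    rw [card_range] at h3
    omega
  · intro h
    refine ⟨range r, range_subset_range.2 hr, by rw [card_range]; exact h, ?_⟩
    rw [Nat.le_zero, card_eq_zero, filter_eq_empty_iff]
    rintro i _ ⟨j, hj, h⟩
    rw [mem_range] at hj
    simp [hj] at h

/-! ### The edges -/

/-- The set `K` is a clique of size `k` of the graph on `range V` with the edges `es`. -/
def Clq (V k : ℕ) (es : List (ℕ × ℕ)) : Prop :=
  ∃ K ⊆ range V, K.card = k ∧ ∀ p ∈ pairsOf K, p ∈ es

theorem clq_of {V k : ℕ} (hk : 2 ≤ k) {es : List (ℕ × ℕ)} {K : Finset ℕ} {F : Finset (ℕ × ℕ)}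
    (hK : K ⊆ range V) (hKk : K.card ≤ k) (hF : F ⊆ pairsOf K) (hFk : k.choose 2 ≤ F.card)
    (hFe : ∀ p ∈ F, p ∈ es) : Clq V k es := by
  have h1 := card_le_card hF
  rw [card_pairsOf] at h1
  have h2 : K.card = k := by
    by_contra hne
    have := choose_two_lt hk (show K.card < k by omega)
    omega
  have h3 : F = pairsOf K := by
    refine eq_of_subset_of_card_le hF ?_
    rw [card_pairsOf, h2]
    exact hFk
  exact ⟨K, hK, h2, fun p hp => hFe p (h3 ▸ hp)⟩

/-- The edge number `j`. -/
def eg (es : List (ℕ × ℕ)) (j : ℕ) : ℕ × ℕ := es.getD j (0, 0)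

theorem eg_mem {es : List (ℕ × ℕ)} {j : ℕ} (hj : j < es.length) : eg es j ∈ es := by
  unfold eg
  rw [List.getD_eq_getElem _ _ hj]
  exact List.getElem_mem hj

theorem eg_inj {es : List (ℕ × ℕ)} (hnd : es.Nodup) :
    Set.InjOn (eg es) {j | j < es.length} := by
  intro i hi j hj h
  unfold eg at h
  rw [List.getD_eq_getElem _ _ hi, List.getD_eq_getElem _ _ hj] at h
  exact (hnd.getElem_inj_iff).1 h

theorem exists_eg {es : List (ℕ × ℕ)} {p : ℕ × ℕ} (hp : p ∈ es) :
    ∃ j < es.length, eg es j = p := by
  obtain ⟨j, hj, rfl⟩ := List.mem_iff_getElem.1 hp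
  exact ⟨j, hj, by unfold eg; rw [List.getD_eq_getElem _ _ hj]⟩

/-- The number of edges inside `K`. -/
theorem card_inside {es : List (ℕ × ℕ)} (hnd : es.Nodup) {K : Finset ℕ}
    (hK : ∀ p ∈ pairsOf K, p ∈ es) :
    ((range es.length).filter fun j => eg es j ∈ pairsOf K).card = K.card.choose 2 := by
  rw [← card_pairsOf]
  refine card_bij (fun j _ => eg es j) ?_ ?_ ?_
  · intro j hj
    exact (mem_filter.1 hj).2
  · intro i hi j hj h
    exact eg_inj hnd (mem_range.1 (mem_filter.1 hi).1) (mem_range.1 (mem_filter.1 hj).1) h
  · intro p hp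
    obtain ⟨j, hj, rfl⟩ := exists_eg (hK p hp)
    exact ⟨j, mem_filter.2 ⟨mem_range.2 hj, hp⟩, rfl⟩

/-! ### The first instance: few columns are needed -/

/-- The entries of the first instance. -/
def f1 (es : List (ℕ × ℕ)) (D i j : ℕ) : Bool :=
  if j < es.length then decide (i ≠ (eg es j).1 ∧ i ≠ (eg es j).2) else
    decide (j < es.length + D)

/-- The first instance. -/
def inst1 (V k m D : ℕ) (es : List (ℕ × ℕ)) : Mat × ℕ := (mk (V + k + 1) m (f1 es D), k)

theorem inst1_valid (V k m D : ℕ) (es : List (ℕ × ℕ)) : Valid (inst1 V k m D es) :=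
  mk_valid (by omega) (by omega)

theorem inst1_old {z : ℕ → ℕ} {V k m D : ℕ} {es : List (ℕ × ℕ)} (hk : 2 ≤ k) (hnd : es.Nodup)
    (hes : ∀ p ∈ es, p.1 < p.2 ∧ p.2 < V) (hm : es.length + D ≤ m)
    (hz : z m = k.choose 2 + D) : Old z (inst1 V k m D es) ↔ Clq V k es := by
  unfold inst1
  rw [mk_old (by omega), hz]
  constructor
  · rintro ⟨S, hS, h1, h2⟩
    have hSD : ∀ j ∈ S, j < es.length + D := by
      intro j hj
      by_contra hcon
      have h3 : range (V + k + 1) ⊆ (range (V + k + 1)).filter
          fun i => ∃ j ∈ S, f1 es D i j = false := by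
        intro i hi
        rw [mem_filter]
        refine ⟨hi, j, hj, ?_⟩
        unfold f1
        rw [if_neg (by omega)]
        exact decide_eq_false hcon
      have := card_le_card h3
      rw [card_range] at this
      omega
    set S0 := S.filter fun j => j < es.length with hS0
    have hS0c : k.choose 2 ≤ S0.card := by
      have h3 : S ⊆ S0 ∪ (range D).image (fun d => es.length + d) := by
        intro j hj
        rw [mem_union, hS0, mem_filter, mem_image]
        by_cases hjM : j < es.length
        · exact Or.inl ⟨hj, hjM⟩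
        · have := hSD j hj
          exact Or.inr ⟨j - es.length, mem_range.2 (by omega), by omega⟩
      have h4 := (card_le_card h3).trans (card_union_le _ _)
      have h5 : ((range D).image (fun d => es.length + d)).card ≤ D := by
        refine card_image_le.trans ?_
        rw [card_range]
      omega
    set R := ((range (V + k + 1)).filter fun i => ∃ j ∈ S, f1 es D i j = false) with hR
    have hend : ∀ j ∈ S0, (eg es j).1 ∈ R ∧ (eg es j).2 ∈ R := by
      intro j hj
      rw [hS0, mem_filter] at hj
      have h3 := hes _ (eg_mem hj.2)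
      rw [hR, mem_filter, mem_filter, mem_range, mem_range]
      refine ⟨⟨by omega, j, hj.1, ?_⟩, ⟨by omega, j, hj.1, ?_⟩⟩ <;>
      · unfold f1
        rw [if_pos hj.2]
        exact decide_eq_false (by simp)
    refine clq_of hk (K := R.filter fun i => i < V) (F := S0.image (eg es)) ?_ ?_ ?_ ?_ ?_
    · intro i hi
      exact mem_range.2 (mem_filter.1 hi).2
    · exact (card_le_card (filter_subset _ _)).trans h2
    · intro p hp
      obtain ⟨j, hj, rfl⟩ := mem_image.1 hp
      have h3 := hes _ (eg_mem (mem_filter.1 hj).2)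
      refine mem_pairsOf.2 ⟨mem_filter.2 ⟨(hend j hj).1, ?_⟩, mem_filter.2 ⟨(hend j hj).2, h3.2⟩,
        h3.1⟩
      omega
    · rw [card_image_of_injOn]
      · exact hS0c
      · intro i hi j hj h
        exact eg_inj hnd (mem_filter.1 hi).2 (mem_filter.1 hj).2 h
    · intro p hp
      obtain ⟨j, hj, rfl⟩ := mem_image.1 hp
      exact eg_mem (mem_filter.1 hj).2
  · rintro ⟨K, hK, hKk, hKe⟩
    refine ⟨((range es.length).filter fun j => eg es j ∈ pairsOf K) ∪
      (range D).image (fun d => es.length + d), ?_, ?_, ?_⟩
    · intro j hj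
      rw [mem_range]
      rcases mem_union.1 hj with hj | hj
      · have := mem_range.1 (mem_filter.1 hj).1
        omega
      · obtain ⟨d, hd, rfl⟩ := mem_image.1 hj
        rw [mem_range] at hd
        omega
    · rw [card_union_of_disjoint, card_inside hnd hKe, hKk, card_image_of_injective, card_range]
      · intro a b h
        simp only at h
        omega
      · rw [disjoint_left]
        intro j hj hj'
        have := mem_range.1 (mem_filter.1 hj).1
        obtain ⟨d, _, rfl⟩ := mem_image.1 hj'
        omega
    · rw [← hKk]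
      refine card_le_card ?_
      intro i hi
      obtain ⟨hi, j, hj, hf⟩ := mem_filter.1 hi
      rcases mem_union.1 hj with hj | hj
      · obtain ⟨hj1, hj2⟩ := mem_filter.1 hj
        rw [mem_pairsOf] at hj2
        unfold f1 at hf
        rw [if_pos (mem_range.1 hj1)] at hf
        have h3 := of_decide_eq_false hf
        rw [not_and_or, not_not, not_not] at h3
        rcases h3 with rfl | rfl
        · exact hj2.1
        · exact hj2.2.1
      · obtain ⟨d, hd, rfl⟩ := mem_image.1 hj
        rw [mem_range] at hd
        unfold f1 at hf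
        rw [if_neg (by omega)] at hf
        exact absurd (of_decide_eq_false hf) (by omega)

/-! ### The second instance: almost all columns are needed -/

/-- The entries of the second instance. -/
def f2 (es : List (ℕ × ℕ)) (V i j : ℕ) : Bool :=
  if i < es.length then decide (j ≠ (eg es i).1 ∧ j ≠ (eg es i).2) else
    decide (j ≠ V + (i - es.length) / (es.length + 1))

/-- The second instance. -/
def inst2 (V k m D : ℕ) (es : List (ℕ × ℕ)) : Mat × ℕ :=
  (mk (es.length + D * (es.length + 1)) m (f2 es V), es.length - k.choose 2)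

theorem inst2_valid {V k m D : ℕ} {es : List (ℕ × ℕ)} (h : 0 < es.length) :
    Valid (inst2 V k m D es) :=
  mk_valid (by omega) (by omega)

theorem inst2_old {z : ℕ → ℕ} {V k m D : ℕ} {es : List (ℕ × ℕ)} (hk : 2 ≤ k) (hnd : es.Nodup)
    (hes : ∀ p ∈ es, p.1 < p.2 ∧ p.2 < V) (hm : V + D ≤ m) (hM : k.choose 2 ≤ es.length)
    (hz : z m + (k + D) = m) : Old z (inst2 V k m D es) ↔ Clq V k es := by
  have hC : 0 < k.choose 2 := Nat.choose_pos hk
  unfold inst2
  rw [mk_old (by omega)]
  set M := es.length with hMd
  constructor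
  · rintro ⟨S, hS, h1, h2⟩
    set R := range m \ S with hR
    have hRc : R.card ≤ k + D := by
      rw [hR, card_sdiff_of_subset hS, card_range]
      omega
    set Lr := ((range (M + D * (M + 1))).filter fun i => ∃ j ∈ S, f2 es V i j = false) with hLr
    have hdum : ∀ d < D, V + d ∉ S := by
      intro d hd hS'
      have h3 : (range (M + 1)).image (fun t => M + (d * (M + 1) + t)) ⊆ Lr := by
        intro i hi
        obtain ⟨t, ht, rfl⟩ := mem_image.1 hi
        rw [mem_range] at ht
        rw [hLr, mem_filter, mem_range]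
        have h4 : (d + 1) * (M + 1) ≤ D * (M + 1) := Nat.mul_le_mul_right _ hd
        rw [add_mul, one_mul] at h4
        refine ⟨by omega, V + d, hS', ?_⟩
        unfold f2
        rw [if_neg (by omega)]
        refine decide_eq_false ?_
        rw [not_not, show M + (d * (M + 1) + t) - es.length = (M + 1) * d + t by
          rw [mul_comm d]; omega, ← hMd, Nat.mul_add_div (Nat.succ_pos M), Nat.div_eq_of_lt ht,
          add_zero]
      have h4 := card_le_card h3
      rw [card_image_of_injective _ (fun a b h => by simpa using h), card_range] at h4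
      omega
    have hRV : (R.filter fun j => j < V).card ≤ k := by
      have h3 : (R.filter fun j => j < V) ∪ (range D).image (fun d => V + d) ⊆ R := by
        intro j hj
        rcases mem_union.1 hj with hj | hj
        · exact (mem_filter.1 hj).1
        · obtain ⟨d, hd, rfl⟩ := mem_image.1 hj
          rw [mem_range] at hd
          rw [hR, mem_sdiff, mem_range]
          exact ⟨by omega, hdum d hd⟩
      have h4 := card_le_card h3
      rw [card_union_of_disjoint, card_image_of_injective _ (fun a b h => by simpa using h),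
        card_range] at h4
      · omega
      · rw [disjoint_left]
        intro j hj hj'
        have := (mem_filter.1 hj).2
        obtain ⟨d, _, rfl⟩ := mem_image.1 hj'
        omega
    -- the edges which are not lost
    set G := (range M).filter fun i => i ∉ Lr with hG
    have hGc : k.choose 2 ≤ G.card := by
      have h3 : range M ⊆ G ∪ Lr := by
        intro i hi
        rw [mem_union, hG, mem_filter]
        by_cases h : i ∈ Lr
        · exact Or.inr h
        · exact Or.inl ⟨hi, h⟩
      have h4 := (card_le_card h3).trans (card_union_le _ _)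
      rw [card_range] at h4
      omega
    have hGin : ∀ i ∈ G, eg es i ∈ pairsOf (R.filter fun j => j < V) := by
      intro i hi
      rw [hG, mem_filter, mem_range] at hi
      have h3 := hes _ (eg_mem hi.1)
      have h4 : ∀ j ∈ S, j ≠ (eg es i).1 ∧ j ≠ (eg es i).2 := by
        intro j hj
        by_contra hcon
        apply hi.2
        rw [hLr, mem_filter, mem_range]
        refine ⟨by omega, j, hj, ?_⟩
        unfold f2
        rw [if_pos hi.1]
        exact decide_eq_false hcon
      rw [mem_pairsOf, mem_filter, mem_filter, hR, mem_sdiff, mem_sdiff, mem_range, mem_range]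
      exact ⟨⟨⟨by omega, fun h => (h4 _ h).1 rfl⟩, by omega⟩,
        ⟨⟨by omega, fun h => (h4 _ h).2 rfl⟩, by omega⟩, h3.1⟩
    refine clq_of hk (K := R.filter fun j => j < V) (F := G.image (eg es)) ?_ hRV ?_ ?_ ?_
    · intro i hi
      exact mem_range.2 (mem_filter.1 hi).2
    · intro p hp
      obtain ⟨j, hj, rfl⟩ := mem_image.1 hp
      exact hGin j hj
    · rw [card_image_of_injOn]
      · exact hGc
      · intro i hi j hj h
        exact eg_inj hnd (mem_range.1 (mem_filter.1 hi).1) (mem_range.1 (mem_filter.1 hj).1) h
    · intro p hp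
      obtain ⟨j, hj, rfl⟩ := mem_image.1 hp
      exact eg_mem (mem_range.1 (mem_filter.1 hj).1)
  · rintro ⟨K, hK, hKk, hKe⟩
    set R := K ∪ (range D).image (fun d => V + d) with hR
    have hRm : R ⊆ range m := by
      intro j hj
      rw [mem_range]
      rcases mem_union.1 hj with hj | hj
      · have := mem_range.1 (hK hj)
        omega
      · obtain ⟨d, hd, rfl⟩ := mem_image.1 hj
        rw [mem_range] at hd
        omega
    have hRc : R.card = k + D := by
      rw [hR, card_union_of_disjoint, hKk, card_image_of_injective _ (fun a b h => by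
        simpa using h), card_range]
      rw [disjoint_left]
      intro j hj hj'
      have := mem_range.1 (hK hj)
      obtain ⟨d, _, rfl⟩ := mem_image.1 hj'
      omega
    refine ⟨range m \ R, sdiff_subset, ?_, ?_⟩
    · rw [card_sdiff_of_subset hRm, card_range, hRc]
      omega
    · have h3 : ((range (M + D * (M + 1))).filter fun i => ∃ j ∈ range m \ R, f2 es V i j = false)
          ⊆ range M \ ((range M).filter fun j => eg es j ∈ pairsOf K) := by
        intro i hi
        obtain ⟨hi, j, hj, hf⟩ := mem_filter.1 hi
        rw [mem_sdiff] at hj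
        rw [mem_range] at hi
        by_cases hiM : i < M
        · rw [mem_sdiff, mem_filter, mem_range]
          refine ⟨hiM, ?_⟩
          rintro ⟨_, hp⟩
          rw [mem_pairsOf] at hp
          unfold f2 at hf
          rw [if_pos hiM] at hf
          have h4 := of_decide_eq_false hf
          rw [not_and_or, not_not, not_not] at h4
          rcases h4 with rfl | rfl
          · exact hj.2 (mem_union_left _ hp.1)
          · exact hj.2 (mem_union_left _ hp.2.1)
        · exfalso
          unfold f2 at hf
          rw [if_neg hiM] at hf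
          have h4 := of_decide_eq_false hf
          rw [not_not] at h4
          apply hj.2
          rw [h4]
          refine mem_union_right _ (mem_image.2 ⟨_, mem_range.2 ?_, rfl⟩)
          have h5 : i - es.length < D * (es.length + 1) := by
            rw [← hMd]
            omega
          exact (Nat.div_lt_iff_lt_mul (Nat.succ_pos _)).2 h5
      refine (card_le_card h3).trans ?_
      rw [card_sdiff_of_subset (filter_subset _ _), card_range, hMd, card_inside hnd hKe, hKk]

end Pool.Agent.Q227.LB
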