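import Pool.Agent.Q227.LB.Pol

/-!
# The main theorem
-/

set_option autoImplicit false

namespace Pool.Agent.Q227.LB

open Pool.Agent.NPC Pool.Agent.Q227.TF

theorem pow_big {X e : ℕ} (h : 2 * X ≤ e) : X ≤ 2 ^ (e / 2) := by
  have h1 : X ≤ e / 2 := by omega
  exact (Nat.lt_two_pow_self.le).trans (Nat.pow_le_pow_right (by norm_num) h1)

theorem main_tendsto {z : ℕ → ℕ} (hz : ∀ m, z m ≤ m)
    (hlim : ∀ c, ∃ m₁, ∀ m, m₁ ≤ m → c ≤ min (z m) (m - z m)) (hETH : ETH) : ¬ InPoly z := by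
  rintro ⟨A, hA, hdec⟩
  refine hETH ⟨BB A, BB_poly hA, fun c hc => ?_⟩
  obtain ⟨m₁, hm₁⟩ := hlim ((12 * (c + 1)) ^ 6)
  refine ⟨c * (2 * (128 * (12 * (c + 1)) ^ 6) + m₁), fun N hN => ?_⟩
  have h1 : 2 * (128 * (12 * (c + 1)) ^ 6) + m₁ ≤ N / c := by
    rw [Nat.le_div_iff_mul_le hc, mul_comm]
    exact hN
  have h2 : m₁ ≤ 2 ^ (N / c) :=
    (show m₁ ≤ N / c by omega).trans Nat.lt_two_pow_self.le
  have h3 := hm₁ _ h2
  rw [le_min_iff] at h3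
  refine BB_right hdec hz hc (pow_big (by omega)) (m₀ := 2 ^ (N / c)) le_rfl ?_ h3.1 ?_
  · have := Nat.one_le_two_pow (n := N / c)
    omega
  · have := hz (2 ^ (N / c))
    omega

theorem main_unbounded {z : ℕ → ℕ} (hz : ∀ m, z m ≤ m)
    (hlim : ∀ c, ∃ m, c < min (z m) (m - z m)) (hETH : ETHae) : ¬ InPoly z := by
  rintro ⟨A, hA, hdec⟩
  refine hETH ⟨BB A, BB_poly hA, fun c hc n₀ => ?_⟩
  set W := 128 * (12 * (c + 1)) ^ 6 with hW
  obtain ⟨m, hm⟩ := hlim (2 ^ (2 * W + n₀ + 1))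
  rw [lt_min_iff] at hm
  have hmz := hz m
  have hbig : 2 ^ (2 * W + n₀ + 1) < m := by omega
  have hlog : 2 * W + n₀ + 1 ≤ Nat.log 2 m := Nat.le_log_of_pow_le (by norm_num) hbig.le
  have hm0 : m ≠ 0 := (Nat.zero_le _ |>.trans_lt hbig).ne'
  have hl1 : 2 ^ Nat.log 2 m ≤ m := Nat.pow_log_le_self 2 hm0
  have hl2 : m < 2 ^ (Nat.log 2 m + 1) := Nat.lt_pow_succ_log_self (by norm_num) m
  have hWp : 2 * W + n₀ + 1 < 2 ^ (2 * W + n₀ + 1) := Nat.lt_two_pow_self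
  have hdiv : c * Nat.log 2 m / c = Nat.log 2 m := Nat.mul_div_cancel_left _ hc
  refine ⟨c * Nat.log 2 m, ?_, ?_⟩
  · calc n₀ ≤ Nat.log 2 m := by omega
      _ ≤ c * Nat.log 2 m := Nat.le_mul_of_pos_left _ hc
  · have hXW : (12 * (c + 1)) ^ 6 ≤ W := Nat.le_mul_of_pos_left _ (by norm_num)
    refine BB_right hdec hz hc (m₀ := m) ?_ ?_ ?_ ?_ ?_
    · rw [hdiv]
      exact pow_big (by omega)
    · rw [hdiv]
      exact hl1
    · rw [hdiv, ← pow_succ']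
      exact hl2
    · omega
    · omega

end Pool.Agent.Q227.LB
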