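import Pool.Agent.Q227.LB.Alg
import Pool.Agent.Q227.Oracle
import Pool.Agent.H622R2.CoNP
import Pool.Agent.H671R2.PolyAuto

/-!
# The algorithm takes polynomial time
-/

set_option autoImplicit false

namespace Pool.Agent.Q227.LB

open Pool.Agent.NPC Pool.Agent.Q227.TF

abbrev AI : Type := F3 × List Bool

theorem lenU : UPoly (fun a : AI => a.2.length) := UPoly.length (NPC.Poly.snd NPC.Poly.id)

theorem ee_poly : NPC.Poly ee := by
  unfold ee
  have h1 : NPC.Poly (fun a : AI => a.2.length.bits) := Poly.natBits lenU.toPoly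
  have h2 : NPC.Poly (fun a : AI => a.2.length.bits.length) := NPC.Poly.length h1
  fun_prop

theorem gg_poly : NPC.Poly gg := by
  have := ee_poly
  unfold gg
  fun_prop

theorem vchk_poly : NPC.Poly (fun p : F3 × ℕ => vchk p.1 p.2) := by
  unfold vchk
  fun_prop

theorem qqU : UPoly qq := by
  unfold qq cc
  refine UPoly.mul (UPoly.const 12) (UPoly.add (UPoly.length ?_) (UPoly.const 1))
  have h1 : NPC.Poly (fun a : AI => List.range (a.2.length + 1)) :=
    (UPoly.add lenU (UPoly.const 1)).range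
  have h2 : NPC.Poly (fun p : AI × ℕ => ee p.1) := ee_poly.comp (f := fun p : AI × ℕ => p.1)
    (by fun_prop)
  have h3 : NPC.Poly (fun p : AI × ℕ => vchk p.1.1 (p.2 * (ee p.1 + 1))) :=
    vchk_poly.comp (f := fun p : AI × ℕ => (p.1.1, p.2 * (ee p.1 + 1))) (by fun_prop)
  exact NPC.Poly.filter h1 (by fun_prop)

theorem kqU : UPoly kq := by
  unfold kq
  exact UPoly.mul (UPoly.mul qqU qqU) qqU

theorem c2_poly : NPC.Poly c2 := by
  have := kqU.toPoly
  unfold c2
  fun_prop

theorem natBits_poly {α : Type} [TEnc α] {n : α → ℕ} (hn : NPC.Poly n) :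
    NPC.Poly (fun a => (n a).bits) := Poly.natBits hn

theorem compat_poly {α : Type} [TEnc α] {f g : α → Vx} (hf : NPC.Poly f) (hg : NPC.Poly g) :
    NPC.Poly (fun a => compat (f a) (g a)) := by
  have h : NPC.Poly (fun p : Vx × Vx => compat p.1 p.2) := by
    unfold compat prs
    fun_prop
  exact h.comp (NPC.Poly.pair hf hg)

theorem col_poly {α : Type} [TEnc α] {f : α → Vx} (hf : NPC.Poly f) :
    NPC.Poly (fun a => col (f a)) := by
  unfold col
  fun_prop

theorem bitv_poly {α : Type} [TEnc α] {f g : α → ℕ} (hf : NPC.Poly f) (hg : NPC.Poly g) :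
    NPC.Poly (fun a => bitv (f a) (g a)) := by
  have h1 : NPC.Poly (fun a => (f a).bits) := Poly.natBits hf
  unfold bitv
  fun_prop

theorem cchk_poly : NPC.Poly (fun p : (ℕ × Vx) × (Lit ℕ × Lit ℕ × Lit ℕ) =>
    cchk p.1.1 p.1.2 p.2) := by
  have b1 : NPC.Poly (fun p : (ℕ × Vx) × (Lit ℕ × Lit ℕ × Lit ℕ) =>
      bitv p.1.2.1.2 (p.2.1.2 % p.1.1)) := bitv_poly (by fun_prop) (by fun_prop)
  have b2 : NPC.Poly (fun p : (ℕ × Vx) × (Lit ℕ × Lit ℕ × Lit ℕ) =>
      bitv p.1.2.2.1.2 (p.2.2.1.2 % p.1.1)) := bitv_poly (by fun_prop) (by fun_prop)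
  have b3 : NPC.Poly (fun p : (ℕ × Vx) × (Lit ℕ × Lit ℕ × Lit ℕ) =>
      bitv p.1.2.2.2.2 (p.2.2.2.2 % p.1.1)) := bitv_poly (by fun_prop) (by fun_prop)
  unfold cchk
  fun_prop

theorem okv_poly : NPC.Poly (fun p : AI × Vx => okv p.1.1 (gg p.1) p.2) := by
  have h0 : NPC.Poly (fun p : AI × Vx => gg p.1) := gg_poly.comp (f := fun p : AI × Vx => p.1)
    (by fun_prop)
  have h1 : NPC.Poly (fun p : AI × Vx => compat p.2 p.2) := compat_poly (by fun_prop) (by fun_prop)
  have h2 : NPC.Poly (fun s : (AI × Vx) × (Lit ℕ × Lit ℕ × Lit ℕ) =>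
      cchk (gg s.1.1) s.1.2 s.2) := by
    have e : NPC.Poly (fun s : (AI × Vx) × (Lit ℕ × Lit ℕ × Lit ℕ) => gg s.1.1) :=
      gg_poly.comp (f := fun s : (AI × Vx) × (Lit ℕ × Lit ℕ × Lit ℕ) => s.1.1) (by fun_prop)
    exact cchk_poly.comp (f := fun s : (AI × Vx) × (Lit ℕ × Lit ℕ × Lit ℕ) =>
      ((gg s.1.1, s.1.2), s.2)) (by fun_prop)
  have h3 : NPC.Poly (fun p : AI × Vx => p.1.1.all fun C => cchk (gg p.1) p.2 C) :=
    NPC.Poly.all (by fun_prop) h2
  unfold okv
  exact NPC.Poly.and h1 h3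

theorem gps_poly : NPC.Poly (fun a : AI => gps (qq a) (gg a) a.2.length) := by
  have h1 : NPC.Poly (fun a : AI => List.range (qq a)) := qqU.range
  have h2 : NPC.Poly (fun a : AI => List.range (2 * a.2.length)) :=
    (UPoly.mul (UPoly.const 2) lenU).range
  have h3 : NPC.Poly (fun p : AI × ℕ => gg p.1) := gg_poly.comp (f := fun p : AI × ℕ => p.1)
    (by fun_prop)
  have h4 : NPC.Poly (fun p : AI × ℕ => p.2.bits.length) :=
    NPC.Poly.length (Poly.natBits (by fun_prop))
  have h5 : NPC.Poly (fun a : AI => vals (gg a) a.2.length) := NPC.Poly.filter h2 (by fun_prop)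
  exact R671.poly_product h1 h5

theorem vl_poly : NPC.Poly vl := by
  have h1 := gps_poly
  have h2 : NPC.Poly (fun a : AI => gps (qq a) (gg a) a.2.length ×ˢ
      (gps (qq a) (gg a) a.2.length ×ˢ gps (qq a) (gg a) a.2.length)) :=
    R671.poly_product h1 (R671.poly_product h1 h1)
  exact NPC.Poly.filter h2 okv_poly

theorem adjv_poly {α : Type} [TEnc α] {f g : α → Vx} (hf : NPC.Poly f) (hg : NPC.Poly g) :
    NPC.Poly (fun a => adjv (f a) (g a)) := by
  unfold adjv
  exact NPC.Poly.and (NPC.Poly.not (NPC.Poly.dec_eq (col_poly hf) (col_poly hg)))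
    (compat_poly hf hg)

theorem elist_poly : NPC.Poly elist := by
  have h2 : NPC.Poly (fun l : List Vx => List.range l.length) := (UPoly.length NPC.Poly.id).range
  have h4 : NPC.Poly (fun p : List Vx × ℕ × ℕ => p.1.getD p.2.1 dv) :=
    NPC.Poly.getD (by fun_prop) (by fun_prop) (NPC.Poly.const _)
  have h5 : NPC.Poly (fun p : List Vx × ℕ × ℕ => p.1.getD p.2.2 dv) :=
    NPC.Poly.getD (by fun_prop) (by fun_prop) (NPC.Poly.const _)
  have h6 := adjv_poly h4 h5
  have h7 : NPC.Poly (fun p : List Vx × ℕ × ℕ => decide (p.2.1 < p.2.2)) :=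
    NPC.Poly.decide_lt (by fun_prop) (by fun_prop)
  exact NPC.Poly.filter (R671.poly_product h2 h2) (NPC.Poly.and h7 h6)

theorem el_poly : NPC.Poly el := elist_poly.comp vl_poly

/-- Matrices. -/
theorem mk_poly {α : Type} [TEnc α] {n m : α → ℕ} {f : α → ℕ → ℕ → Bool} (hn : UPoly n)
    (hm : UPoly m) (hf : NPC.Poly (fun p : (α × ℕ) × ℕ => f p.1.1 p.1.2 p.2)) :
    NPC.Poly (fun a => mk (n a) (m a) (f a)) := by
  unfold mk
  have h2 : NPC.Poly (fun p : α × ℕ => List.range (m p.1)) :=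
    hm.range.comp (f := fun p : α × ℕ => p.1) (by fun_prop)
  exact NPC.Poly.map hn.range (NPC.Poly.map h2 hf)

section

variable {A : List Bool → List Bool} (hA : PolyTime A)
include hA

theorem zz_poly {α : Type} [TEnc α] {m : α → ℕ} (hm : UPoly m) : UPoly (fun a => zz A (m a)) := by
  unfold zz
  refine UPoly.length ?_
  have h1 : NPC.Poly (fun a => List.range (m a + 1)) := (UPoly.add hm (UPoly.const 1)).range
  have h2 : NPC.Poly (fun p : α × ℕ => qry (m p.1) p.2) := by
    unfold qry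
    refine NPC.Poly.pair (mk_poly (UPoly.const 1) (hm.comp (by fun_prop)) ?_) (NPC.Poly.const _)
    fun_prop
  have h3 : NPC.Poly (fun p : α × ℕ => A (bits (qry (m p.1) p.2))) :=
    (poly_of_polyTime hA).comp h2
  exact NPC.Poly.filter h1 (NPC.Poly.not (NPC.Poly.dec_eq h3 (NPC.Poly.const _)))

theorem cand_poly : NPC.Poly (cand A) := by
  have h0 : NPC.Poly (fun a : AI => a.2.length) := lenU.toPoly
  have h1 : NPC.Poly (fun a : AI => (List.range a.2.length).map fun t => a.2.length + t) :=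
    NPC.Poly.map lenU.range (by fun_prop)
  have h2 : UPoly (fun p : AI × ℕ => min p.2 (2 * p.1.2.length)) := by
    refine UPoly.of_le (n := fun p : AI × ℕ => 2 * p.1.2.length) (by fun_prop)
      (UPoly.mul (UPoly.const 2) (lenU.comp (f := fun p : AI × ℕ => p.1) (by fun_prop)))
      fun p => Nat.min_le_right _ _
  have h3 := (zz_poly hA h2).toPoly
  have h4 : NPC.Poly (fun p : AI × ℕ => c2 p.1) := c2_poly.comp (f := fun p : AI × ℕ => p.1)
    (by fun_prop)
  exact NPC.Poly.filter h1 (by fun_prop)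

theorem mmU : UPoly (mm A) := by
  have h1 := cand_poly hA
  refine UPoly.of_le (n := fun a : AI => 2 * a.2.length) ?_ (UPoly.mul (UPoly.const 2) lenU)
    fun a => Nat.min_le_right _ _
  unfold mm
  fun_prop

theorem eg_poly {α : Type} [TEnc α] {es : α → List (ℕ × ℕ)} {j : α → ℕ} (he : NPC.Poly es)
    (hj : NPC.Poly j) : NPC.Poly (fun a => eg (es a) (j a)) := by
  unfold eg
  exact NPC.Poly.getD he hj (NPC.Poly.const _)

theorem inst1_poly {V k m D : AI → ℕ} {es : AI → List (ℕ × ℕ)} (hV : UPoly V) (hk : UPoly k)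
    (hm : UPoly m) (hD : NPC.Poly D) (hes : NPC.Poly es) :
    NPC.Poly (fun a => inst1 (V a) (k a) (m a) (D a) (es a)) := by
  unfold inst1
  refine NPC.Poly.pair (mk_poly (UPoly.add (UPoly.add hV hk) (UPoly.const 1)) hm ?_) hk.toPoly
  have e1 : NPC.Poly (fun p : (AI × ℕ) × ℕ => es p.1.1) :=
    hes.comp (f := fun p : (AI × ℕ) × ℕ => p.1.1) (by fun_prop)
  have e2 : NPC.Poly (fun p : (AI × ℕ) × ℕ => eg (es p.1.1) p.2) :=
    eg_poly hA e1 (by fun_prop)
  have e3 : NPC.Poly (fun p : (AI × ℕ) × ℕ => D p.1.1) :=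
    hD.comp (f := fun p : (AI × ℕ) × ℕ => p.1.1) (by fun_prop)
  have e4 : NPC.Poly (fun p : (AI × ℕ) × ℕ => (es p.1.1).length) := NPC.Poly.length e1
  unfold f1
  fun_prop

theorem inst2_poly {V k m D : AI → ℕ} {es : AI → List (ℕ × ℕ)} (hV : UPoly V) (hk : UPoly k)
    (hm : UPoly m) (hD : UPoly D) (hes : NPC.Poly es) :
    NPC.Poly (fun a => inst2 (V a) (k a) (m a) (D a) (es a)) := by
  unfold inst2
  have l1 : UPoly (fun a => (es a).length) := UPoly.length hes
  refine NPC.Poly.pair (mk_poly (UPoly.add l1 (UPoly.mul hD (UPoly.add l1 (UPoly.const 1)))) hm ?_)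
    ?_
  · have e1 : NPC.Poly (fun p : (AI × ℕ) × ℕ => es p.1.1) :=
      hes.comp (f := fun p : (AI × ℕ) × ℕ => p.1.1) (by fun_prop)
    have e2 : NPC.Poly (fun p : (AI × ℕ) × ℕ => eg (es p.1.1) p.1.2) :=
      eg_poly hA e1 (by fun_prop)
    have e3 : NPC.Poly (fun p : (AI × ℕ) × ℕ => V p.1.1) :=
      hV.toPoly.comp (f := fun p : (AI × ℕ) × ℕ => p.1.1) (by fun_prop)
    have e4 : NPC.Poly (fun p : (AI × ℕ) × ℕ => (es p.1.1).length) := NPC.Poly.length e1
    have e5 : NPC.Poly (fun p : (AI × ℕ) × ℕ =>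
        V p.1.1 + (p.1.2 - (es p.1.1).length) / ((es p.1.1).length + 1)) :=
      NPC.Poly.add e3 (NPC.Poly.div (NPC.Poly.sub (by fun_prop) e4)
        (NPC.Poly.add e4 (NPC.Poly.const 1)))
    have e6 : NPC.Poly (fun p : (AI × ℕ) × ℕ => decide (p.2 ≠ V p.1.1 +
        (p.1.2 - (es p.1.1).length) / ((es p.1.1).length + 1))) :=
      NPC.Poly.decide_not (NPC.Poly.dec_eq (by fun_prop) e5)
    have e7 : NPC.Poly (fun p : (AI × ℕ) × ℕ => decide (p.2 ≠ (eg (es p.1.1) p.1.2).1 ∧
        p.2 ≠ (eg (es p.1.1) p.1.2).2)) := by fun_prop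
    have e8 : NPC.Poly (fun p : (AI × ℕ) × ℕ => decide (p.1.2 < (es p.1.1).length)) :=
      NPC.Poly.decide_lt (by fun_prop) e4
    exact NPC.Poly.ite e8 e7 e6
  · have l2 := l1.toPoly
    have l3 : NPC.Poly (fun a => (k a).choose 2) := by
      have := hk.toPoly
      simp only [Nat.choose_two_right]
      fun_prop
    fun_prop

theorem body_poly : NPC.Poly (body A) := by
  have h1 := cand_poly hA
  have h2 := mmU hA
  have h3 := zz_poly hA h2
  have h4 := el_poly
  have h5 : NPC.Poly (fun a : AI => (el a).length) := NPC.Poly.length h4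
  have h6 := c2_poly
  have h7 : UPoly (fun a : AI => (vl a).length) := UPoly.length vl_poly
  have h8 := kqU
  have h2' := h2.toPoly
  have h3' := h3.toPoly
  have h8' := h8.toPoly
  have d1 : NPC.Poly (fun a : AI => zz A (mm A a) - c2 a) := by fun_prop
  have d2 : UPoly (fun a : AI => mm A a - zz A (mm A a) - kq a) := by
    refine UPoly.of_le (by fun_prop) h2 fun a => by omega
  have i1 := (poly_of_polyTime hA).comp (inst1_poly hA h7 h8 h2 d1 h4)
  have i2 := (poly_of_polyTime hA).comp (inst2_poly hA h7 h8 h2 d2 h4)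
  unfold body
  refine NPC.Poly.and (NPC.Poly.not (NPC.Poly.isEmpty h1)) (NPC.Poly.and
    (NPC.Poly.not (NPC.Poly.decide_lt h5 h6)) (NPC.Poly.ite ?_ ?_ ?_))
  · fun_prop
  · exact NPC.Poly.dec_eq i1 (NPC.Poly.const _)
  · exact NPC.Poly.dec_eq i2 (NPC.Poly.const _)

theorem BB_poly : PolyTime (BB A) := by
  refine H622R2.polyTime_of_poly_list ?_
  refine (NPC.Poly.optCases (o := unbits (F3 × List Bool)) (g := fun _ => [false])
    (h := fun _ a => [body A a]) poly_unbits (NPC.Poly.const _) ?_).congr ?_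
  · have h1 : NPC.Poly (fun p : List Bool × AI => body A p.2) :=
      (body_poly hA).comp (NPC.Poly.snd NPC.Poly.id)
    exact NPC.Poly.cons h1 (NPC.Poly.const _)
  · intro x
    unfold BB
    cases unbits (F3 × List Bool) x <;> rfl

end

end Pool.Agent.Q227.LB
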