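import Pool.Agent.Q227.LB.Inst

/-!
# Satisfiability and cliques in the compatibility graph of partial assignments
-/

set_option autoImplicit false

namespace Pool.Agent.Q227.LB

open Pool.Agent.NPC Pool.Agent.Q227.TF Pool.Agent.Q227.SK

/-- Partial assignments to three groups of variables: three pairs (group, values). -/
abbrev Vx : Type := (ℕ × ℕ) × (ℕ × ℕ) × (ℕ × ℕ)

/-- The bit number `s` of `a`. -/
def bitv (a s : ℕ) : Bool := a.bits.getD s false

theorem bitv_eq (a s : ℕ) : bitv a s = a.testBit s := by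
  rw [Nat.testBit_eq_inth]
  unfold bitv
  rw [List.getI_eq_getElem?_getD, List.getD_eq_getElem?_getD]
  rfl

/-- The three groups. -/
def col (v : Vx) : ℕ × ℕ × ℕ := (v.1.1, v.2.1.1, v.2.2.1)

/-- The three pairs. -/
def prs (v : Vx) : List (ℕ × ℕ) := [v.1, v.2.1, v.2.2]

/-- The same values on the common groups. -/
def compat (v w : Vx) : Bool :=
  (prs v).all fun p => (prs w).all fun p' => !decide (p.1 = p'.1) || decide (p.2 = p'.2)

theorem compat_iff {v w : Vx} : compat v w = true ↔ ∀ p ∈ prs v, ∀ p' ∈ prs w, p.1 = p'.1 →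
    p.2 = p'.2 := by
  unfold compat
  simp only [List.all_eq_true, Bool.or_eq_true, Bool.not_eq_true', decide_eq_false_iff_not,
    decide_eq_true_eq]
  constructor
  · intro h p hp p' hp' he
    rcases h p hp p' hp' with h | h
    · exact absurd he h
    · exact h
  · intro h p hp p' hp'
    by_cases he : p.1 = p'.1
    · exact Or.inr (h p hp p' hp' he)
    · exact Or.inl he

theorem compat_symm {v w : Vx} (h : compat v w = true) : compat w v = true := by
  rw [compat_iff] at h ⊢
  intro p hp p' hp' he
  exact (h p' hp' p hp he.symm).symm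

/-- The clause `C`, whose groups are those of `v`, is satisfied by `v`. -/
def cchk (g : ℕ) (v : Vx) (C : Lit ℕ × Lit ℕ × Lit ℕ) : Bool :=
  !(decide (C.1.2 / g = v.1.1) && (decide (C.2.1.2 / g = v.2.1.1) &&
    decide (C.2.2.2 / g = v.2.2.1))) ||
  (decide (bitv v.1.2 (C.1.2 % g) = C.1.1) || (decide (bitv v.2.1.2 (C.2.1.2 % g) = C.2.1.1) ||
    decide (bitv v.2.2.2 (C.2.2.2 % g) = C.2.2.1)))

/-- The partial assignment is consistent and satisfies the clauses. -/
def okv (φ : F3) (g : ℕ) (v : Vx) : Bool := compat v v && φ.all fun C => cchk g v C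

/-- Different groups and the same values on the common groups. -/
def adjv (v w : Vx) : Bool := !decide (col v = col w) && compat v w

/-- The list of the values. -/
def vals (g L : ℕ) : List ℕ := (List.range (2 * L)).filter fun a => decide (a.bits.length ≤ g)

/-- The pairs (group, values). -/
def gps (q g L : ℕ) : List (ℕ × ℕ) := (List.range q) ×ˢ (vals g L)

/-- The vertices. -/
def vlist (φ : F3) (q g L : ℕ) : List Vx :=
  (gps q g L ×ˢ (gps q g L ×ˢ gps q g L)).filter fun v => okv φ g v

/-- A vertex. -/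
def dv : Vx := ((0, 0), (0, 0), (0, 0))

/-- The edges. -/
def elist (vl : List Vx) : List (ℕ × ℕ) :=
  ((List.range vl.length) ×ˢ (List.range vl.length)).filter fun p =>
    decide (p.1 < p.2) && adjv (vl.getD p.1 dv) (vl.getD p.2 dv)

theorem mem_vals {g L a : ℕ} : a ∈ vals g L ↔ a < 2 * L ∧ a < 2 ^ g := by
  unfold vals
  rw [List.mem_filter, List.mem_range, decide_eq_true_eq, Nat.size_eq_bits_len, Nat.size_le]

theorem mem_gps {q g L : ℕ} {p : ℕ × ℕ} : p ∈ gps q g L ↔ p.1 < q ∧ p.2 < 2 * L ∧ p.2 < 2 ^ g := by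
  unfold gps
  rw [List.mem_product, List.mem_range, mem_vals]

theorem mem_vlist {φ : F3} {q g L : ℕ} {v : Vx} : v ∈ vlist φ q g L ↔
    (v.1 ∈ gps q g L ∧ v.2.1 ∈ gps q g L ∧ v.2.2 ∈ gps q g L) ∧ okv φ g v = true := by
  unfold vlist
  rw [List.mem_filter, List.mem_product, List.mem_product]

theorem gps_nodup (q g L : ℕ) : (gps q g L).Nodup :=
  List.Nodup.product List.nodup_range (List.nodup_range.filter _)

theorem vlist_nodup (φ : F3) (q g L : ℕ) : (vlist φ q g L).Nodup :=
  List.Nodup.filter _ (List.Nodup.product (gps_nodup q g L)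
    (List.Nodup.product (gps_nodup q g L) (gps_nodup q g L)))

theorem elist_nodup (vl : List Vx) : (elist vl).Nodup :=
  List.Nodup.filter _ (List.Nodup.product List.nodup_range List.nodup_range)

theorem mem_elist {vl : List Vx} {p : ℕ × ℕ} : p ∈ elist vl ↔
    p.1 < p.2 ∧ p.2 < vl.length ∧ adjv (vl.getD p.1 dv) (vl.getD p.2 dv) = true := by
  unfold elist
  rw [List.mem_filter, List.mem_product, List.mem_range, List.mem_range, Bool.and_eq_true,
    decide_eq_true_eq]
  constructor
  · rintro ⟨⟨_, h1⟩, h2, h3⟩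
    exact ⟨h2, h1, h3⟩
  · rintro ⟨h1, h2, h3⟩
    exact ⟨⟨by omega, h2⟩, h1, h3⟩

theorem elist_lt (vl : List Vx) : ∀ p ∈ elist vl, p.1 < p.2 ∧ p.2 < vl.length := fun _ hp =>
  ⟨(mem_elist.1 hp).1, (mem_elist.1 hp).2.1⟩

theorem elist_length (vl : List Vx) : (elist vl).length ≤ vl.length * vl.length := by
  unfold elist
  refine (List.length_filter_le _ _).trans ?_
  rw [List.length_product, List.length_range]

theorem gps_length (q g L : ℕ) : (gps q g L).length ≤ q * 2 ^ g := by
  unfold gps
  rw [List.length_product, List.length_range]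
  refine Nat.mul_le_mul_left _ ?_
  have h : (vals g L).toFinset ⊆ Finset.range (2 ^ g) := by
    intro a ha
    rw [List.mem_toFinset, mem_vals] at ha
    exact Finset.mem_range.2 ha.2
  have h2 := Finset.card_le_card h
  have h3 : (vals g L).Nodup := List.nodup_range.filter _
  rw [List.toFinset_card_of_nodup h3, Finset.card_range] at h2
  exact h2

theorem vlist_length (φ : F3) (q g L : ℕ) : (vlist φ q g L).length ≤
    (q * 2 ^ g) * ((q * 2 ^ g) * (q * 2 ^ g)) := by
  unfold vlist
  refine (List.length_filter_le _ _).trans ?_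
  rw [List.length_product, List.length_product]
  have h := gps_length q g L
  exact Nat.mul_le_mul h (Nat.mul_le_mul h h)

/-- Cliques are satisfying assignments. -/
theorem sat_iff {φ : F3} {q g L N : ℕ} (hφ : Vars φ N) (hN : N ≤ q * g) (hg : 0 < g)
    (hL : 2 ^ g ≤ 2 * L) : SAT3 φ ↔
      Clq (vlist φ q g L).length (q * q * q) (elist (vlist φ q g L)) := by
  set vl := vlist φ q g L with hvl
  constructor
  · rintro ⟨t, ht⟩
    -- the values
    have hex : ∀ i : ℕ, ∃ a : ℕ, a < 2 ^ g ∧ ∀ s < g, bitv a s = t (i * g + s) := by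
      intro i
      refine ⟨Nat.ofBits fun s : Fin g => t (i * g + s), Nat.ofBits_lt_two_pow _, ?_⟩
      intro s hs
      rw [bitv_eq, Nat.testBit_ofBits_lt _ _ hs]
    choose α hα1 hα2 using hex
    have hval : ∀ x, bitv (α (x / g)) (x % g) = t x := by
      intro x
      rw [hα2 _ _ (Nat.mod_lt x hg), mul_comm, Nat.div_add_mod]
    set vv : ℕ × ℕ × ℕ → Vx := fun c => ((c.1, α c.1), (c.2.1, α c.2.1), (c.2.2, α c.2.2)) with hvv
    have hcomp : ∀ c c', compat (vv c) (vv c') = true := by
      intro c c'
      rw [compat_iff]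
      intro p hp p' hp' he
      have h1 : p.2 = α p.1 := by
        simp only [prs, hvv, List.mem_cons, List.not_mem_nil, or_false] at hp
        rcases hp with rfl | rfl | rfl <;> rfl
      have h2 : p'.2 = α p'.1 := by
        simp only [prs, hvv, List.mem_cons, List.not_mem_nil, or_false] at hp'
        rcases hp' with rfl | rfl | rfl <;> rfl
      rw [h1, h2, he]
    set cs : Finset (ℕ × ℕ × ℕ) := Finset.range q ×ˢ (Finset.range q ×ˢ Finset.range q) with hcs
    have hmem : ∀ c ∈ cs, vv c ∈ vl := by
      intro c hc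
      rw [hcs, Finset.mem_product, Finset.mem_product, Finset.mem_range, Finset.mem_range,
        Finset.mem_range] at hc
      rw [hvl, mem_vlist, mem_gps, mem_gps, mem_gps]
      have hb : ∀ i, α i < 2 * L ∧ α i < 2 ^ g := fun i => ⟨(hα1 i).trans_le hL, hα1 i⟩
      refine ⟨⟨⟨hc.1, hb _⟩, ⟨hc.2.1, hb _⟩, ⟨hc.2.2, hb _⟩⟩, ?_⟩
      unfold okv
      rw [hcomp, Bool.true_and, List.all_eq_true]
      intro C hC
      unfold cchk
      simp only [hvv]
      by_cases h : C.1.2 / g = c.1 ∧ C.2.1.2 / g = c.2.1 ∧ C.2.2.2 / g = c.2.2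
      · have e1 : bitv (α c.1) (C.1.2 % g) = t C.1.2 := by rw [← h.1, hval]
        have e2 : bitv (α c.2.1) (C.2.1.2 % g) = t C.2.1.2 := by rw [← h.2.1, hval]
        have e3 : bitv (α c.2.2) (C.2.2.2 % g) = t C.2.2.2 := by rw [← h.2.2, hval]
        simp only [e1, e2, e3, Bool.or_eq_true, decide_eq_true_eq]
        exact Or.inr (ht C hC)
      · have : (decide (C.1.2 / g = c.1) && (decide (C.2.1.2 / g = c.2.1) &&
            decide (C.2.2.2 / g = c.2.2))) = false := by
          rw [← Bool.not_eq_true, Bool.and_eq_true, Bool.and_eq_true, decide_eq_true_eq,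
            decide_eq_true_eq, decide_eq_true_eq]
          exact h
        rw [this]
        rfl
    have hcol : ∀ c, col (vv c) = c := fun c => rfl
    have hinj : Set.InjOn (fun c => vl.idxOf (vv c)) (cs : Set (ℕ × ℕ × ℕ)) := by
      intro c hc c' _ h
      have := (List.idxOf_inj (hmem c hc)).1 h
      rw [← hcol c, this, hcol]
    refine ⟨cs.image fun c => vl.idxOf (vv c), ?_, ?_, ?_⟩
    · intro a ha
      obtain ⟨c, hc, rfl⟩ := Finset.mem_image.1 ha
      exact Finset.mem_range.2 (List.idxOf_lt_length_of_mem (hmem c hc))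
    · rw [Finset.card_image_of_injOn hinj, hcs, Finset.card_product, Finset.card_product,
        Finset.card_range, mul_assoc]
    · intro p hp
      rw [mem_pairsOf] at hp
      obtain ⟨h1, h2, h3⟩ := hp
      obtain ⟨c, hc, hc1⟩ := Finset.mem_image.1 h1
      obtain ⟨c', hc', hc1'⟩ := Finset.mem_image.1 h2
      have e1 : vl.getD p.1 dv = vv c := by
        rw [← hc1, List.getD_eq_getElem _ _ (List.idxOf_lt_length_of_mem (hmem c hc)),
          List.getElem_idxOf]
      have e2 : vl.getD p.2 dv = vv c' := by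
        rw [← hc1', List.getD_eq_getElem _ _ (List.idxOf_lt_length_of_mem (hmem c' hc')),
          List.getElem_idxOf]
      rw [mem_elist, e1, e2]
      refine ⟨h3, ?_, ?_⟩
      · rw [← hc1']
        exact List.idxOf_lt_length_of_mem (hmem c' hc')
      · unfold adjv
        rw [hcomp, hcol, hcol, Bool.and_true, Bool.not_eq_true', decide_eq_false_iff_not]
        rintro rfl
        rw [hc1] at hc1'
        omega
  · rintro ⟨K, hK, hKc, hKe⟩
    have hadj : ∀ a ∈ K, ∀ b ∈ K, a ≠ b → col (vl.getD a dv) ≠ col (vl.getD b dv) ∧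
        compat (vl.getD a dv) (vl.getD b dv) = true := by
      have key : ∀ a ∈ K, ∀ b ∈ K, a < b → col (vl.getD a dv) ≠ col (vl.getD b dv) ∧
          compat (vl.getD a dv) (vl.getD b dv) = true := by
        intro a ha b hb hab
        have := (mem_elist.1 (hKe (a, b) (mem_pairsOf.2 ⟨ha, hb, hab⟩))).2.2
        unfold adjv at this
        simp only [Bool.and_eq_true, Bool.not_eq_true', decide_eq_false_iff_not] at this
        exact this
      intro a ha b hb hab
      rcases lt_or_gt_of_ne hab with h | h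
      · exact key a ha b hb h
      · exact ⟨(key b hb a ha h).1.symm, compat_symm (key b hb a ha h).2⟩
    have hvmem : ∀ a ∈ K, vl.getD a dv ∈ vl := by
      intro a ha
      have := Finset.mem_range.1 (hK ha)
      rw [List.getD_eq_getElem _ _ this]
      exact List.getElem_mem this
    have himg : K.image (fun a => col (vl.getD a dv)) =
        Finset.range q ×ˢ (Finset.range q ×ˢ Finset.range q) := by
      refine Finset.eq_of_subset_of_card_le ?_ ?_
      · intro c hc
        obtain ⟨a, ha, rfl⟩ := Finset.mem_image.1 hc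
        have h1 := hvmem a ha
        rw [hvl, mem_vlist, mem_gps, mem_gps, mem_gps, ← hvl] at h1
        rw [Finset.mem_product, Finset.mem_product, Finset.mem_range, Finset.mem_range,
          Finset.mem_range]
        exact ⟨h1.1.1.1, h1.1.2.1.1, h1.1.2.2.1⟩
      · rw [Finset.card_product, Finset.card_product, Finset.card_range, ← mul_assoc,
          Finset.card_image_of_injOn, hKc]
        intro a ha b hb h
        by_contra hne
        exact (hadj a ha b hb hne).1 h
    have hv : ∀ i j l, i < q → j < q → l < q → ∃ a ∈ K, col (vl.getD a dv) = (i, j, l) := by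
      intro i j l hi hj hl
      have : (i, j, l) ∈ K.image (fun a => col (vl.getD a dv)) := by
        rw [himg, Finset.mem_product, Finset.mem_product, Finset.mem_range, Finset.mem_range,
          Finset.mem_range]
        exact ⟨hi, hj, hl⟩
      obtain ⟨a, ha, h⟩ := Finset.mem_image.1 this
      exact ⟨a, ha, h⟩
    have hd : ∀ i, ∃ a, i < q → a ∈ K ∧ col (vl.getD a dv) = (i, i, i) := by
      intro i
      by_cases hi : i < q
      · obtain ⟨a, ha, h⟩ := hv i i i hi hi hi
        exact ⟨a, fun _ => ⟨ha, h⟩⟩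
      · exact ⟨0, fun h => absurd h hi⟩
    choose δ hδ using hd
    set α : ℕ → ℕ := fun i => (vl.getD (δ i) dv).1.2 with hα
    -- all members of the clique have the values `α`
    have hcons : ∀ a ∈ K, ∀ p ∈ prs (vl.getD a dv), p.1 < q → p.2 = α p.1 := by
      intro a ha p hp hpq
      obtain ⟨h1, h2⟩ := hδ p.1 hpq
      have h3 : (vl.getD (δ p.1) dv).1 ∈ prs (vl.getD (δ p.1) dv) := by simp [prs]
      have h4 : (vl.getD (δ p.1) dv).1.1 = p.1 := congrArg (fun c : ℕ × ℕ × ℕ => c.1) h2
      by_cases hne : a = δ p.1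
      · have h5 := hvmem a ha
        rw [hvl, mem_vlist, ← hvl] at h5
        have h6 := h5.2
        unfold okv at h6
        rw [Bool.and_eq_true, compat_iff] at h6
        rw [← hne] at h3 h4
        have := h6.1 p hp _ h3 h4.symm
        rw [this, hne]
      · have h5 := (hadj a ha (δ p.1) h1 hne).2
        rw [compat_iff] at h5
        exact h5 p hp _ h3 h4.symm
    refine ⟨fun x => bitv (α (x / g)) (x % g), ?_⟩
    intro C hC
    obtain ⟨n1, n2, n3⟩ := hφ C hC
    have hlt : ∀ x, x < N → x / g < q := fun x hx => by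
      rw [Nat.div_lt_iff_lt_mul hg]
      omega
    obtain ⟨a, ha, hcol⟩ := hv _ _ _ (hlt _ n1) (hlt _ n2) (hlt _ n3)
    have h1 := hvmem a ha
    rw [hvl, mem_vlist, ← hvl] at h1
    have h2 := h1.2
    unfold okv at h2
    rw [Bool.and_eq_true, List.all_eq_true] at h2
    have h3 := h2.2 C hC
    have c1 : (vl.getD a dv).1.1 = C.1.2 / g := congrArg Prod.fst hcol
    have c2 : (vl.getD a dv).2.1.1 = C.2.1.2 / g := congrArg (fun c => c.2.1) hcol
    have c3 : (vl.getD a dv).2.2.1 = C.2.2.2 / g := congrArg (fun c => c.2.2) hcol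
    have d1 := hcons a ha (vl.getD a dv).1 (by simp [prs]) (by rw [c1]; exact hlt _ n1)
    have d2 := hcons a ha (vl.getD a dv).2.1 (by simp [prs]) (by rw [c2]; exact hlt _ n2)
    have d3 := hcons a ha (vl.getD a dv).2.2 (by simp [prs]) (by rw [c3]; exact hlt _ n3)
    rw [c1] at d1
    rw [c2] at d2
    rw [c3] at d3
    unfold cchk at h3
    rw [c1, c2, c3, d1, d2, d3] at h3
    simp only [decide_true, Bool.and_true, Bool.not_true, Bool.false_or, Bool.or_eq_true,
      decide_eq_true_eq] at h3
    exact h3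

end Pool.Agent.Q227.LB
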